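import Pool.Agent.LE.StmtsQF

/-!
# The total mass of the change of the resolvent in a kill run (AND2B, MP_1906c1_mp), helper97

`mas w A G Go = ∑_{x, y ∈ A} w_x w_y |G_xy - Go_xy|²`, `A` the nodes which are not touched, `w` their
absorption, `Go` the resolvent at the start of the attempt, `ro w A G c = ∑_{x ∈ A} w_x |G_xc|²`.
-/

set_option autoImplicit false

open scoped BigOperators Matrix

noncomputable section

namespace Pool.Agent.ANR.H97

open Pool.Agent.LE.QF (HJ HM LL dC JalStmt)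

variable {X : Type} [Fintype X] [DecidableEq X]

/-- the total mass of the change -/
def mas (w : X → ℝ) (A : Finset X) (G Go : Matrix X X ℂ) : ℝ :=
  ∑ x ∈ A, ∑ y ∈ A, w x * w y * ‖G x y - Go x y‖ ^ 2

/-- the absorption in `A` of the wave emitted at `c` -/
def ro (w : X → ℝ) (A : Finset X) (G : Matrix X X ℂ) (c : X) : ℝ := ∑ x ∈ A, w x * ‖G x c‖ ^ 2

omit [Fintype X] [DecidableEq X] in
theorem mas_nonneg (w : X → ℝ) (A : Finset X) (G Go : Matrix X X ℂ) (hw : ∀ x ∈ A, 0 ≤ w x) :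
    0 ≤ mas w A G Go :=
  Finset.sum_nonneg fun x hx => Finset.sum_nonneg fun y hy =>
    mul_nonneg (mul_nonneg (hw x hx) (hw y hy)) (sq_nonneg _)

omit [Fintype X] [DecidableEq X] in
theorem ro_nonneg (w : X → ℝ) (A : Finset X) (G : Matrix X X ℂ) (c : X)
    (hw : ∀ x ∈ A, 0 ≤ w x) : 0 ≤ ro w A G c :=
  Finset.sum_nonneg fun x hx => mul_nonneg (hw x hx) (sq_nonneg _)

omit [Fintype X] [DecidableEq X] in
/-- Cauchy-Schwarz over the pairs -/
theorem mas_cs (w : X → ℝ) (A : Finset X) (G Go : Matrix X X ℂ) (c : X)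
    (hs : ∀ x y, G x y = G y x) (hw : ∀ x ∈ A, 0 ≤ w x) :
    ∑ x ∈ A, ∑ y ∈ A, w x * w y * (‖G x y - Go x y‖ * (‖G x c‖ * ‖G c y‖)) ≤
      Real.sqrt (mas w A G Go) * ro w A G c := by
  have h0 := ro_nonneg w A G c hw
  have e1 : ∑ x ∈ A, ∑ y ∈ A, w x * w y * (‖G x y - Go x y‖ * (‖G x c‖ * ‖G c y‖)) =
      ∑ p ∈ A ×ˢ A, (Real.sqrt (w p.1 * w p.2) * ‖G p.1 p.2 - Go p.1 p.2‖) *
        (Real.sqrt (w p.1 * w p.2) * (‖G p.1 c‖ * ‖G c p.2‖)) := by
    rw [Finset.sum_product]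
    refine Finset.sum_congr rfl fun x hx => Finset.sum_congr rfl fun y hy => ?_
    have h1 : Real.sqrt (w x * w y) * Real.sqrt (w x * w y) = w x * w y :=
      Real.mul_self_sqrt (mul_nonneg (hw x hx) (hw y hy))
    simp only
    calc w x * w y * (‖G x y - Go x y‖ * (‖G x c‖ * ‖G c y‖)) =
        (Real.sqrt (w x * w y) * Real.sqrt (w x * w y)) *
          (‖G x y - Go x y‖ * (‖G x c‖ * ‖G c y‖)) := by rw [h1]
      _ = _ := by ring
  rw [e1]
  refine (Real.sum_mul_le_sqrt_mul_sqrt (A ×ˢ A) _ _).trans ?_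
  have e2 : ∑ p ∈ A ×ˢ A, (Real.sqrt (w p.1 * w p.2) * ‖G p.1 p.2 - Go p.1 p.2‖) ^ 2 =
      mas w A G Go := by
    rw [Finset.sum_product]
    unfold mas
    refine Finset.sum_congr rfl fun x hx => Finset.sum_congr rfl fun y hy => ?_
    rw [mul_pow, Real.sq_sqrt (mul_nonneg (hw x hx) (hw y hy))]
  have e3 : ∑ p ∈ A ×ˢ A, (Real.sqrt (w p.1 * w p.2) * (‖G p.1 c‖ * ‖G c p.2‖)) ^ 2 =
      ro w A G c ^ 2 := by
    rw [Finset.sum_product]
    unfold ro
    rw [sq, Finset.sum_mul_sum]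
    refine Finset.sum_congr rfl fun x hx => Finset.sum_congr rfl fun y hy => ?_
    simp only
    rw [mul_pow, Real.sq_sqrt (mul_nonneg (hw x hx) (hw y hy)), mul_pow, hs c y]
    ring
  rw [e2, e3, Real.sqrt_sq h0]

omit [Fintype X] [DecidableEq X] in
/-- MAS: the jet of the total mass in a kill run: the sources are `e c`, `c : ι`, the gauge errors
`μ c`; the weights `w` do not depend on the time -/
theorem mas_jet (hJ : JalStmt) {ι : Type} [Fintype ι] [DecidableEq ι] (e : ι → X)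
    (q : ℝ × (ι → ℝ)) (Gm : ℝ × (ι → ℝ) → Matrix X X ℂ) (G Go : Matrix X X ℂ) (μ : ι → ℂ)
    (w : X → ℝ) (A : Finset X)
    (hG : HM Gm q G (fun c a b => -(G a (e c) * G (e c) b))
      (fun a b => ∑ c, G a (e c) * μ c * G (e c) b))
    (hs : ∀ a b, G a b = G b a) (hw : ∀ x ∈ A, 0 ≤ w x) :
    ∃ (g' : ι → ℝ) (l' : ℝ), HJ (fun r => mas w A (Gm r) Go) q (mas w A G Go) g' l' ∧
      l' ≤ ∑ c, ro w A G (e c) ^ 2 +
        2 * Real.sqrt (mas w A G Go) * ∑ c, ‖μ c‖ * ro w A G (e c) ∧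
      ∑ c, g' c ^ 2 ≤ 4 * mas w A G Go * ∑ c, ro w A G (e c) ^ 2 := by
  obtain ⟨hcC, _, haddC, hconjC, _, _, _, _⟩ := hJ ι ℂ q
  obtain ⟨hcR, _, haddR, _, _, hsumR, _, _⟩ := hJ ι ℝ q
  have hM0 := mas_nonneg w A G Go hw
  have hr0 : ∀ c, 0 ≤ ro w A G (e c) := fun c => ro_nonneg w A G (e c) hw
  -- one entry
  have h1 : ∀ x y, HJ (fun r => ‖Gm r x y - Go x y‖ ^ 2) q (‖G x y - Go x y‖ ^ 2)
      (fun c => -(2 * ((starRingEnd ℂ) (G x y - Go x y) * (G x (e c) * G (e c) y)).re))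
      (2 * ((starRingEnd ℂ) (G x y - Go x y) * ∑ c, G x (e c) * μ c * G (e c) y).re +
        ∑ c, (‖G x (e c)‖ ^ 2 * ‖G (e c) y‖ ^ 2)) := by
    intro x y
    have a1 := (haddC _ _ _ _ _ _ _ _ (hG x y) (hcC (Go x y))).2.1
    have a2 := (hconjC _ _ _ _ a1).1
    have a3 := (haddC _ _ _ _ _ _ _ _ a1 a2).2.2
    have a4 := (hconjC _ _ _ _ a3).2.1
    have e0 : (fun r => ‖Gm r x y - Go x y‖ ^ 2) =
        fun r => RCLike.re ((Gm r x y - Go x y) * (starRingEnd ℂ) (Gm r x y - Go x y)) := by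
      funext r
      rw [RCLike.mul_conj]
      norm_cast
    have e1 : ‖G x y - Go x y‖ ^ 2 =
        RCLike.re ((G x y - Go x y) * (starRingEnd ℂ) (G x y - Go x y)) := by
      rw [RCLike.mul_conj]
      norm_cast
    have e2 : (fun c => -(2 * ((starRingEnd ℂ) (G x y - Go x y) * (G x (e c) * G (e c) y)).re)) =
        fun c => RCLike.re ((G x y - Go x y) * (starRingEnd ℂ) (-(G x (e c) * G (e c) y) - 0) +
          (-(G x (e c) * G (e c) y) - 0) * (starRingEnd ℂ) (G x y - Go x y)) := by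
      funext c
      simp only [sub_zero, map_neg, RCLike.re_to_complex, Complex.add_re, Complex.mul_re,
        Complex.neg_re, Complex.neg_im, Complex.conj_re, Complex.conj_im, map_mul, Complex.mul_im]
      ring
    have e3 : 2 * ((starRingEnd ℂ) (G x y - Go x y) * ∑ c, G x (e c) * μ c * G (e c) y).re +
        ∑ c, (‖G x (e c)‖ ^ 2 * ‖G (e c) y‖ ^ 2) =
        RCLike.re ((G x y - Go x y) *
            (starRingEnd ℂ) ((∑ c, G x (e c) * μ c * G (e c) y) - 0) +
          ((∑ c, G x (e c) * μ c * G (e c) y) - 0) * (starRingEnd ℂ) (G x y - Go x y) +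
          ∑ c, (-(G x (e c) * G (e c) y) - 0) *
            (starRingEnd ℂ) (-(G x (e c) * G (e c) y) - 0)) := by
      have f1 : ∀ z z' : ℂ, (z * (starRingEnd ℂ) z' + z' * (starRingEnd ℂ) z).re =
          2 * ((starRingEnd ℂ) z * z').re := by
        intro z z'
        simp only [Complex.add_re, Complex.mul_re, Complex.conj_re, Complex.conj_im]
        ring
      simp only [sub_zero, RCLike.re_to_complex]
      rw [Complex.add_re, f1, Complex.re_sum]
      congr 1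
      refine Finset.sum_congr rfl fun c _ => ?_
      rw [map_neg, neg_mul_neg, Complex.mul_conj, Complex.ofReal_re, Complex.normSq_eq_norm_sq,
        norm_mul, mul_pow]
    rw [e0, e1, e2, e3]
    exact a4
  -- with weights
  have h2 : ∀ x ∈ A, HJ (fun r => ∑ y ∈ A, w x * w y * ‖Gm r x y - Go x y‖ ^ 2) q
      (∑ y ∈ A, w x * w y * ‖G x y - Go x y‖ ^ 2)
      (fun c => ∑ y ∈ A, w x * w y *
        (-(2 * ((starRingEnd ℂ) (G x y - Go x y) * (G x (e c) * G (e c) y)).re)))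
      (∑ y ∈ A, w x * w y *
        (2 * ((starRingEnd ℂ) (G x y - Go x y) * ∑ c, G x (e c) * μ c * G (e c) y).re +
        ∑ c, (‖G x (e c)‖ ^ 2 * ‖G (e c) y‖ ^ 2))) := by
    intro x _
    refine hsumR X A (fun y r => w x * w y * ‖Gm r x y - Go x y‖ ^ 2)
      (fun y => w x * w y * ‖G x y - Go x y‖ ^ 2)
      (fun y => w x * w y *
        (2 * ((starRingEnd ℂ) (G x y - Go x y) * ∑ c, G x (e c) * μ c * G (e c) y).re +
        ∑ c, (‖G x (e c)‖ ^ 2 * ‖G (e c) y‖ ^ 2)))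
      (fun y c => w x * w y *
        (-(2 * ((starRingEnd ℂ) (G x y - Go x y) * (G x (e c) * G (e c) y)).re))) fun y _ => ?_
    have a1 := (haddR _ _ _ _ _ _ _ _ (hcR (w x * w y)) (h1 x y)).2.2
    simpa using a1
  have h3 := hsumR X A (fun x r => ∑ y ∈ A, w x * w y * ‖Gm r x y - Go x y‖ ^ 2)
      (fun x => ∑ y ∈ A, w x * w y * ‖G x y - Go x y‖ ^ 2)
      (fun x => ∑ y ∈ A, w x * w y *
        (2 * ((starRingEnd ℂ) (G x y - Go x y) * ∑ c, G x (e c) * μ c * G (e c) y).re +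
        ∑ c, (‖G x (e c)‖ ^ 2 * ‖G (e c) y‖ ^ 2)))
      (fun x c => ∑ y ∈ A, w x * w y *
        (-(2 * ((starRingEnd ℂ) (G x y - Go x y) * (G x (e c) * G (e c) y)).re))) h2
  refine ⟨_, _, h3, ?_, ?_⟩
  · -- the drift
    have b1 : ∑ x ∈ A, ∑ y ∈ A, w x * w y *
        (2 * ((starRingEnd ℂ) (G x y - Go x y) * ∑ c, G x (e c) * μ c * G (e c) y).re +
        ∑ c, (‖G x (e c)‖ ^ 2 * ‖G (e c) y‖ ^ 2)) =
        ∑ c, ((∑ x ∈ A, ∑ y ∈ A, w x * w y *
          (2 * ((starRingEnd ℂ) (G x y - Go x y) * (G x (e c) * μ c * G (e c) y)).re)) +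
          ∑ x ∈ A, ∑ y ∈ A, w x * w y * (‖G x (e c)‖ ^ 2 * ‖G (e c) y‖ ^ 2)) := by
      rw [Finset.sum_add_distrib]
      have c1 : ∀ F : ι → X → X → ℝ, ∑ c, ∑ x ∈ A, ∑ y ∈ A, F c x y =
          ∑ x ∈ A, ∑ y ∈ A, ∑ c, F c x y := by
        intro F
        rw [Finset.sum_comm]
        refine Finset.sum_congr rfl fun x _ => ?_
        rw [Finset.sum_comm]
      rw [c1, c1, ← Finset.sum_add_distrib]
      refine Finset.sum_congr rfl fun x _ => ?_
      rw [← Finset.sum_add_distrib]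
      refine Finset.sum_congr rfl fun y _ => ?_
      have k1 : ((starRingEnd ℂ) (G x y - Go x y) * ∑ c, G x (e c) * μ c * G (e c) y).re =
          ∑ c, ((starRingEnd ℂ) (G x y - Go x y) * (G x (e c) * μ c * G (e c) y)).re := by
        rw [Finset.mul_sum, Complex.re_sum]
      rw [k1, mul_add]
      simp only [Finset.mul_sum]
    rw [b1, Finset.sum_add_distrib, add_comm, Finset.mul_sum]
    refine add_le_add ?_ ?_
    · refine Finset.sum_le_sum fun c _ => le_of_eq ?_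
      unfold ro
      rw [sq, Finset.sum_mul_sum]
      refine Finset.sum_congr rfl fun x _ => Finset.sum_congr rfl fun y _ => ?_
      rw [hs (e c) y]
      ring
    · refine Finset.sum_le_sum fun c _ => ?_
      have b2 : ∑ x ∈ A, ∑ y ∈ A, w x * w y *
          (2 * ((starRingEnd ℂ) (G x y - Go x y) * (G x (e c) * μ c * G (e c) y)).re) ≤
          ∑ x ∈ A, ∑ y ∈ A, 2 * ‖μ c‖ *
            (w x * w y * (‖G x y - Go x y‖ * (‖G x (e c)‖ * ‖G (e c) y‖))) := by
        refine Finset.sum_le_sum fun x hx => Finset.sum_le_sum fun y hy => ?_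
        have c1 := Complex.re_le_norm
          ((starRingEnd ℂ) (G x y - Go x y) * (G x (e c) * μ c * G (e c) y))
        rw [norm_mul, RCLike.norm_conj, norm_mul, norm_mul] at c1
        have c2 : 0 ≤ w x * w y := mul_nonneg (hw x hx) (hw y hy)
        calc w x * w y *
            (2 * ((starRingEnd ℂ) (G x y - Go x y) * (G x (e c) * μ c * G (e c) y)).re) ≤
            w x * w y * (2 * (‖G x y - Go x y‖ * (‖G x (e c)‖ * ‖μ c‖ * ‖G (e c) y‖))) :=
              mul_le_mul_of_nonneg_left (by linarith) c2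
          _ = _ := by ring
      refine b2.trans ?_
      have b3 : ∑ x ∈ A, ∑ y ∈ A, 2 * ‖μ c‖ *
            (w x * w y * (‖G x y - Go x y‖ * (‖G x (e c)‖ * ‖G (e c) y‖))) =
          2 * ‖μ c‖ * ∑ x ∈ A, ∑ y ∈ A,
            w x * w y * (‖G x y - Go x y‖ * (‖G x (e c)‖ * ‖G (e c) y‖)) := by
        rw [Finset.mul_sum]
        refine Finset.sum_congr rfl fun x _ => ?_
        rw [Finset.mul_sum]
      rw [b3]
      calc 2 * ‖μ c‖ * ∑ x ∈ A, ∑ y ∈ A,
            w x * w y * (‖G x y - Go x y‖ * (‖G x (e c)‖ * ‖G (e c) y‖)) ≤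
          2 * ‖μ c‖ * (Real.sqrt (mas w A G Go) * ro w A G (e c)) :=
            mul_le_mul_of_nonneg_left (mas_cs w A G Go (e c) hs hw) (by positivity)
        _ = _ := by ring
  · -- the gradient
    rw [Finset.mul_sum]
    refine Finset.sum_le_sum fun c _ => ?_
    have b1 : |∑ x ∈ A, ∑ y ∈ A, w x * w y *
        (-(2 * ((starRingEnd ℂ) (G x y - Go x y) * (G x (e c) * G (e c) y)).re))| ≤
        2 * (Real.sqrt (mas w A G Go) * ro w A G (e c)) := by
      refine (Finset.abs_sum_le_sum_abs _ _).trans ?_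
      refine (Finset.sum_le_sum fun x _ => Finset.abs_sum_le_sum_abs _ _).trans ?_
      refine le_trans ?_ (mul_le_mul_of_nonneg_left (mas_cs w A G Go (e c) hs hw)
        (by norm_num : (0 : ℝ) ≤ 2))
      rw [Finset.mul_sum]
      refine Finset.sum_le_sum fun x hx => ?_
      rw [Finset.mul_sum]
      refine Finset.sum_le_sum fun y hy => ?_
      have c1 := Complex.abs_re_le_norm
        ((starRingEnd ℂ) (G x y - Go x y) * (G x (e c) * G (e c) y))
      rw [norm_mul, RCLike.norm_conj, norm_mul] at c1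
      have c2 : 0 ≤ w x * w y := mul_nonneg (hw x hx) (hw y hy)
      rw [abs_mul (w x * w y), abs_neg, abs_mul (2 : ℝ), abs_two, abs_of_nonneg c2]
      calc w x * w y * (2 * |((starRingEnd ℂ) (G x y - Go x y) * (G x (e c) * G (e c) y)).re|) ≤
          w x * w y * (2 * (‖G x y - Go x y‖ * (‖G x (e c)‖ * ‖G (e c) y‖))) :=
            mul_le_mul_of_nonneg_left (by linarith) c2
        _ = _ := by ring
    have b2 := pow_le_pow_left₀ (abs_nonneg _) b1 2
    rw [sq_abs] at b2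
    refine b2.trans (le_of_eq ?_)
    rw [mul_pow, mul_pow, Real.sq_sqrt hM0]
    ring

end Pool.Agent.ANR.H97
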